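import Pool.Agent.Q120.ET.Main

/-!
# Construction of random sets with small relative entropy and long gaps
-/

set_option autoImplicit false

namespace Pool.Agent.Q120.ET

open Finset MeasureTheory Filter ProbabilityTheory

/-- The measure on the subsets of `B` with the weights `p`. -/
noncomputable def blockMeasure (B : Finset ℕ) (p : Finset ℕ → ℝ) : Measure (Finset ℕ) :=
  ∑ T ∈ B.powerset, ENNReal.ofReal (p T) • Measure.dirac T

theorem blockMeasure_apply {B : Finset ℕ} {p : Finset ℕ → ℝ} (hp : ∀ T ∈ B.powerset, 0 ≤ p T)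
    (s : Set (Finset ℕ)) [DecidablePred (· ∈ s)] :
    blockMeasure B p s = ENNReal.ofReal (∑ T ∈ B.powerset with T ∈ s, p T) := by
  classical
  unfold blockMeasure
  rw [Measure.finsetSum_apply, ENNReal.ofReal_sum_of_nonneg (fun T hT => hp T (mem_filter.1 hT).1),
    sum_filter]
  refine sum_congr rfl (fun T _ => ?_)
  rw [Measure.smul_apply, Measure.dirac_apply' _ (MeasurableSet.of_discrete), smul_eq_mul]
  by_cases h : T ∈ s
  · simp [h]
  · simp [h]

theorem isProb_blockMeasure {B : Finset ℕ} {p : Finset ℕ → ℝ} (hp : ∀ T ∈ B.powerset, 0 ≤ p T)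
    (hp1 : ∑ T ∈ B.powerset, p T = 1) : IsProbabilityMeasure (blockMeasure B p) := by
  classical
  refine ⟨?_⟩
  rw [blockMeasure_apply hp]
  simp [hp1]

/-- The mixed weights: the window `W` is free with probability `m`. -/
noncomputable def mix (B W : Finset ℕ) (m : ℝ) (T : Finset ℕ) : ℝ :=
  cramerOn B T * (if Disjoint T W then m / ∏ n ∈ W, (1 - 1 / Real.log n)
    else (1 - m) / (1 - ∏ n ∈ W, (1 - 1 / Real.log n)))

section Mix

variable {B W : Finset ℕ} {m : ℝ}

theorem sum_not_free (hW : W ⊆ B) :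
    ∑ T ∈ B.powerset with ¬ Disjoint T W, cramerOn B T = 1 - ∏ n ∈ W, (1 - 1 / Real.log n) := by
  have h1 := sum_filter_add_sum_filter_not B.powerset (fun T => Disjoint T W) (cramerOn B)
  rw [sum_free hW, sum_cramerOn] at h1
  linarith

theorem sum_mix_free (hW : W ⊆ B) (hQ0 : 0 < ∏ n ∈ W, (1 - 1 / Real.log (n : ℝ))) :
    ∑ T ∈ B.powerset with Disjoint T W, mix B W m T = m := by
  have h1 : ∀ T ∈ B.powerset.filter (fun T => Disjoint T W), mix B W m T =
      cramerOn B T * (m / ∏ n ∈ W, (1 - 1 / Real.log n)) := by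
    intro T hT
    unfold mix
    rw [if_pos (mem_filter.1 hT).2]
  rw [sum_congr rfl h1, ← sum_mul, sum_free hW]
  field_simp

theorem sum_mix_not_free (hW : W ⊆ B) (hQ1 : ∏ n ∈ W, (1 - 1 / Real.log (n : ℝ)) < 1) :
    ∑ T ∈ B.powerset with ¬ Disjoint T W, mix B W m T = 1 - m := by
  have h1 : ∀ T ∈ B.powerset.filter (fun T => ¬ Disjoint T W), mix B W m T =
      cramerOn B T * ((1 - m) / (1 - ∏ n ∈ W, (1 - 1 / Real.log n))) := by
    intro T hT
    unfold mix
    rw [if_neg (mem_filter.1 hT).2]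
  rw [sum_congr rfl h1, ← sum_mul, sum_not_free hW]
  have : 1 - ∏ n ∈ W, (1 - 1 / Real.log (n : ℝ)) ≠ 0 := by linarith
  field_simp

theorem sum_mix (hW : W ⊆ B) (hQ0 : 0 < ∏ n ∈ W, (1 - 1 / Real.log (n : ℝ)))
    (hQ1 : ∏ n ∈ W, (1 - 1 / Real.log (n : ℝ)) < 1) : ∑ T ∈ B.powerset, mix B W m T = 1 := by
  rw [← sum_filter_add_sum_filter_not B.powerset (fun T => Disjoint T W), sum_mix_free hW hQ0,
    sum_mix_not_free hW hQ1]
  ring

theorem mix_nonneg (hB : ∀ n ∈ B, 3 ≤ n) (hQ0 : 0 < ∏ n ∈ W, (1 - 1 / Real.log (n : ℝ)))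
    (hQ1 : ∏ n ∈ W, (1 - 1 / Real.log (n : ℝ)) < 1) (hm0 : 0 ≤ m) (hm1 : m ≤ 1)
    {T : Finset ℕ} (hT : T ∈ B.powerset) : 0 ≤ mix B W m T := by
  unfold mix
  have h1 := cramerOn_pos hB (mem_powerset.1 hT)
  apply mul_nonneg h1.le
  split_ifs
  · positivity
  · apply div_nonneg <;> linarith

theorem entropy_mix (hB : ∀ n ∈ B, 3 ≤ n) (hW : W ⊆ B)
    (hQ0 : 0 < ∏ n ∈ W, (1 - 1 / Real.log (n : ℝ))) (hQ1 : ∏ n ∈ W, (1 - 1 / Real.log (n : ℝ)) < 1) :
    ∑ T ∈ B.powerset, mix B W m T * Real.log (mix B W m T / cramerOn B T) =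
      m * Real.log (m / ∏ n ∈ W, (1 - 1 / Real.log (n : ℝ))) +
      (1 - m) * Real.log ((1 - m) / (1 - ∏ n ∈ W, (1 - 1 / Real.log (n : ℝ)))) := by
  rw [← sum_filter_add_sum_filter_not B.powerset (fun T => Disjoint T W)]
  congr 1
  · have h1 : ∀ T ∈ B.powerset.filter (fun T => Disjoint T W),
        mix B W m T * Real.log (mix B W m T / cramerOn B T) =
        mix B W m T * Real.log (m / ∏ n ∈ W, (1 - 1 / Real.log (n : ℝ))) := by
      intro T hT
      have h2 := cramerOn_pos hB (mem_powerset.1 (mem_filter.1 hT).1)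
      have h3 : mix B W m T / cramerOn B T = m / ∏ n ∈ W, (1 - 1 / Real.log (n : ℝ)) := by
        unfold mix
        rw [if_pos (mem_filter.1 hT).2]
        field_simp
      rw [h3]
    rw [sum_congr rfl h1, ← sum_mul, sum_mix_free hW hQ0]
  · have h1 : ∀ T ∈ B.powerset.filter (fun T => ¬ Disjoint T W),
        mix B W m T * Real.log (mix B W m T / cramerOn B T) =
        mix B W m T * Real.log ((1 - m) / (1 - ∏ n ∈ W, (1 - 1 / Real.log (n : ℝ)))) := by
      intro T hT
      have h2 := cramerOn_pos hB (mem_powerset.1 (mem_filter.1 hT).1)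
      have h3 : mix B W m T / cramerOn B T = (1 - m) / (1 - ∏ n ∈ W, (1 - 1 / Real.log (n : ℝ))) := by
        unfold mix
        rw [if_neg (mem_filter.1 hT).2]
        field_simp
      rw [h3]
    rw [sum_congr rfl h1, ← sum_mul, sum_mix_not_free hW hQ1]

theorem entropy_mix_le (hB : ∀ n ∈ B, 3 ≤ n) (hW : W ⊆ B)
    (hQ0 : 0 < ∏ n ∈ W, (1 - 1 / Real.log (n : ℝ))) (hQ1 : ∏ n ∈ W, (1 - 1 / Real.log (n : ℝ)) < 1)
    (hm : ∏ n ∈ W, (1 - 1 / Real.log (n : ℝ)) ≤ m) (hm1 : m ≤ 1) :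
    ∑ T ∈ B.powerset, mix B W m T * Real.log (mix B W m T / cramerOn B T) ≤
      m * Real.log (1 / ∏ n ∈ W, (1 - 1 / Real.log (n : ℝ))) := by
  rw [entropy_mix hB hW hQ0 hQ1]
  have hm0 : 0 < m := lt_of_lt_of_le hQ0 hm
  have h1 : Real.log (m / ∏ n ∈ W, (1 - 1 / Real.log (n : ℝ))) ≤
      Real.log (1 / ∏ n ∈ W, (1 - 1 / Real.log (n : ℝ))) :=
    Real.log_le_log (by positivity) (div_le_div_of_nonneg_right hm1 hQ0.le)
  have h2 : Real.log ((1 - m) / (1 - ∏ n ∈ W, (1 - 1 / Real.log (n : ℝ)))) ≤ 0 := by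
    apply Real.log_nonpos
    · apply div_nonneg <;> linarith
    · rw [div_le_one (by linarith)]; linarith
  have h3 := mul_le_mul_of_nonneg_left h1 hm0.le
  have h4 : (1 - m) * Real.log ((1 - m) / (1 - ∏ n ∈ W, (1 - 1 / Real.log (n : ℝ)))) ≤ 0 :=
    mul_nonpos_of_nonneg_of_nonpos (by linarith) h2
  linarith

theorem entropy_mix_self (hB : ∀ n ∈ B, 3 ≤ n) (hW : W ⊆ B)
    (hQ0 : 0 < ∏ n ∈ W, (1 - 1 / Real.log (n : ℝ))) (hQ1 : ∏ n ∈ W, (1 - 1 / Real.log (n : ℝ)) < 1) :
    ∑ T ∈ B.powerset, mix B W (∏ n ∈ W, (1 - 1 / Real.log (n : ℝ))) T *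
      Real.log (mix B W (∏ n ∈ W, (1 - 1 / Real.log (n : ℝ))) T / cramerOn B T) = 0 := by
  rw [entropy_mix hB hW hQ0 hQ1, div_self hQ0.ne', div_self (by linarith), Real.log_one]
  ring

end Mix

/-- The random set built from independent blocks. -/
def blockSet (ω : ℕ → Finset ℕ) : Set ℕ := {n | n ∈ ω (Nat.log 2 n)}

theorem mem_blockSet {k n : ℕ} (hn : n ∈ block k) (ω : ℕ → Finset ℕ) : n ∈ blockSet ω ↔ n ∈ ω k := by
  rw [block, mem_Ico] at hn
  have : Nat.log 2 n = k := Nat.log_eq_of_pow_le_of_lt_pow hn.1 hn.2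
  simp only [blockSet, Set.mem_ofPred_eq, this]

theorem isRandomSet_blockSet : IsRandomSet (fun ω : ℕ → Finset ℕ => blockSet ω) := by
  intro n
  have h1 : {ω : ℕ → Finset ℕ | n ∈ blockSet ω} = (fun ω => ω (Nat.log 2 n)) ⁻¹' {T | n ∈ T} := rfl
  rw [h1]
  exact (measurable_pi_apply _) MeasurableSet.of_discrete

section Product

variable (p : ℕ → Finset ℕ → ℝ)

/-- The law of the independent blocks. -/
noncomputable def blockLaw : Measure (ℕ → Finset ℕ) :=
  Measure.infinitePi fun k => blockMeasure (block k) (p k)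

variable {p} (hp : ∀ k, ∀ T ∈ (block k).powerset, 0 ≤ p k T)
  (hp1 : ∀ k, ∑ T ∈ (block k).powerset, p k T = 1)

include hp hp1

theorem blockLaw_pre (k : ℕ) (s : Set (Finset ℕ)) :
    blockLaw p ((fun ω => ω k) ⁻¹' s) = blockMeasure (block k) (p k) s := by
  haveI : ∀ k, IsProbabilityMeasure (blockMeasure (block k) (p k)) :=
    fun k => isProb_blockMeasure (hp k) (hp1 k)
  exact (measurePreserving_eval_infinitePi (fun k => blockMeasure (block k) (p k)) k).measure_preimage
    (MeasurableSet.of_discrete).nullMeasurableSet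

theorem isProb_blockLaw : IsProbabilityMeasure (blockLaw p) := by
  haveI : ∀ k, IsProbabilityMeasure (blockMeasure (block k) (p k)) :=
    fun k => isProb_blockMeasure (hp k) (hp1 k)
  unfold blockLaw
  infer_instance

theorem lawOn_blockLaw (k : ℕ) {T : Finset ℕ} (hT : T ∈ (block k).powerset) :
    lawOn (blockLaw p) (fun ω => blockSet ω) (block k) T = p k T := by
  classical
  have h1 : {ω : ℕ → Finset ℕ | ∀ n ∈ block k, (n ∈ blockSet ω ↔ n ∈ T)} =
      (fun ω => ω k) ⁻¹' {S | ∀ n ∈ block k, (n ∈ S ↔ n ∈ T)} := by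
    ext ω
    simp only [Set.mem_ofPred_eq, Set.mem_preimage]
    constructor
    · intro h n hn
      rw [← mem_blockSet hn]; exact h n hn
    · intro h n hn
      rw [mem_blockSet hn]; exact h n hn
  rw [lawOn, Measure.real, h1, blockLaw_pre hp hp1, blockMeasure_apply (hp k)]
  have h2 : (block k).powerset.filter (fun S => S ∈ {S : Finset ℕ | ∀ n ∈ block k, (n ∈ S ↔ n ∈ T)}) = {T} := by
    ext S
    simp only [mem_filter, mem_powerset, Set.mem_ofPred_eq, mem_singleton]
    constructor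
    · rintro ⟨h3, h4⟩
      ext n
      constructor
      · intro hn
        exact (h4 n (h3 hn)).1 hn
      · intro hn
        exact (h4 n (mem_powerset.1 hT hn)).2 hn
    · rintro rfl
      exact ⟨mem_powerset.1 hT, fun _ _ => Iff.rfl⟩
  rw [h2, sum_singleton, ENNReal.toReal_ofReal (hp k T hT)]

theorem relEntropy_blockLaw (k : ℕ) :
    relEntropy (blockLaw p) (fun ω => blockSet ω) (block k) =
      ∑ T ∈ (block k).powerset, p k T * Real.log (p k T / cramerOn (block k) T) := by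
  unfold relEntropy
  refine sum_congr rfl (fun T hT => ?_)
  rw [lawOn_blockLaw hp hp1 k hT]

theorem indep_blockLaw (s : ℕ → Set (Finset ℕ)) :
    iIndepSet (fun k => (fun ω : ℕ → Finset ℕ => ω k) ⁻¹' s k) (blockLaw p) := by
  haveI : ∀ k, IsProbabilityMeasure (blockMeasure (block k) (p k)) :=
    fun k => isProb_blockMeasure (hp k) (hp1 k)
  rw [iIndepSet_iff_meas_biInter (fun k => (measurable_pi_apply k) MeasurableSet.of_discrete)]
  intro S
  exact (iIndepFun_infinitePi (P := fun k => blockMeasure (block k) (p k)) (X := fun _ x => x)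
      (fun _ => measurable_id)).measure_inter_preimage_eq_mul S (fun _ _ => MeasurableSet.of_discrete)

end Product

/-- A theorem of Abel and Dini. -/
theorem abel_dini {b : ℕ → ℝ} (hb0 : ∀ k, 0 ≤ b k) (hb1 : ∀ k, b k ≤ 1) (hb : ¬ Summable b) :
    ¬ Summable (fun k => b k / (1 + ∑ j ∈ range (k + 1), b j)) := by
  intro hs
  obtain ⟨S, hS⟩ : ∃ S : ℕ → ℝ, S = fun n => 1 + ∑ j ∈ range n, b j := ⟨_, rfl⟩
  have hSn : ∀ n, S n = 1 + ∑ j ∈ range n, b j := fun n => by rw [hS]
  have hS1 : ∀ n, 1 ≤ S n := by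
    intro n
    rw [hSn]
    have := sum_nonneg (fun j (_ : j ∈ range n) => hb0 j)
    linarith
  have hstep : ∀ n, Real.log (S (n + 1)) - Real.log (S n) ≤ 2 * (b n / S (n + 1)) := by
    intro n
    have h1 : S (n + 1) = S n + b n := by rw [hSn, hSn, sum_range_succ]; ring
    have hn := hS1 n
    have hn1 := hS1 (n + 1)
    rw [← Real.log_div (by linarith) (by linarith)]
    have h2 := Real.log_le_sub_one_of_pos (show 0 < S (n + 1) / S n by positivity)
    refine h2.trans ?_
    have h3 : S (n + 1) / S n - 1 = b n / S n := by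
      rw [h1]; field_simp; ring
    rw [h3, ← mul_div_assoc, div_le_div_iff₀ (by linarith) (by linarith)]
    have h4 := hb0 n
    have h5 := hb1 n
    nlinarith
  have hlog : ∀ n, Real.log (S n) ≤ 2 * ∑' k, b k / S (k + 1) := by
    intro n
    have h1 : Real.log (S n) ≤ ∑ k ∈ range n, 2 * (b k / S (k + 1)) := by
      induction n with
      | zero => rw [hSn]; simp
      | succ n ih =>
        rw [sum_range_succ]
        have := hstep n
        linarith
    rw [← mul_sum] at h1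
    have h2 : ∑ k ∈ range n, b k / S (k + 1) ≤ ∑' k, b k / S (k + 1) := by
      apply Summable.sum_le_tsum
      · intro k _
        exact div_nonneg (hb0 k) (by linarith [hS1 (k + 1)])
      · simp_rw [hSn]; exact hs
    linarith
  have htend : Tendsto (fun n => ∑ j ∈ range n, b j) atTop atTop :=
    (not_summable_iff_tendsto_nat_atTop_of_nonneg hb0).1 hb
  have h1 : Tendsto (fun n => Real.log (S n)) atTop atTop := by
    apply Real.tendsto_log_atTop.comp
    have := tendsto_atTop_add_const_left atTop (1 : ℝ) htend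
    refine this.congr (fun n => ?_)
    rw [hSn]
  obtain ⟨n, hn⟩ := (h1.eventually_gt_atTop (2 * ∑' k, b k / S (k + 1))).exists
  linarith [hlog n]

end Pool.Agent.Q120.ET
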