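import Pool.Agent.Q120.ET.Construct

/-!
# Random sets with small relative entropy and long gaps
-/

set_option autoImplicit false

namespace Pool.Agent.Q120.ET

open Finset MeasureTheory Filter ProbabilityTheory

theorem ev_window : ∀ᶠ k : ℕ in atTop, ((k : ℝ) + 2) * 2 ^ ((k : ℝ) / 2) + 2 ≤ 2 ^ k := by
  have hlog2 : 0 < Real.log 2 := Real.log_pos (by norm_num)
  have h1 : Tendsto (fun x : ℝ => x ^ 1 * Real.exp (-x)) atTop (nhds 0) :=
    Real.tendsto_pow_mul_exp_neg_atTop_nhds_zero 1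
  have h2 := (h1.comp (tendsto_natCast_atTop_atTop.const_mul_atTop
    (show 0 < Real.log 2 / 2 by positivity))).eventually_le_const
    (show (0 : ℝ) < Real.log 2 / 8 by positivity)
  have h3 : Tendsto (fun k : ℕ => Real.exp (Real.log 2 / 2 * k)) atTop atTop :=
    Real.tendsto_exp_atTop.comp (tendsto_natCast_atTop_atTop.const_mul_atTop (by positivity))
  filter_upwards [h2, h3.eventually_ge_atTop 8] with k hk hk8
  simp only [Function.comp, pow_one] at hk
  obtain ⟨y, hy⟩ : ∃ y : ℝ, y = Real.exp (Real.log 2 / 2 * k) := ⟨_, rfl⟩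
  have hy1 : (2 : ℝ) ^ ((k : ℝ) / 2) = y := by
    rw [hy, Real.rpow_def_of_pos (by norm_num)]; congr 1; ring
  have hy2 : (2 : ℝ) ^ k = y * y := by
    rw [hy, ← Real.exp_add]
    have : Real.log 2 / 2 * k + Real.log 2 / 2 * k = k * Real.log 2 := by ring
    rw [this, Real.exp_nat_mul, Real.exp_log (by norm_num)]
  rw [hy1, hy2]
  rw [← hy] at hk8
  have h4 : Real.exp (-(Real.log 2 / 2 * k)) * y = 1 := by
    rw [hy, ← Real.exp_add, ← Real.exp_zero]; congr 1; ring
  have hy0 : 0 < y := by linarith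
  have h5 : (k : ℝ) ≤ y / 4 := by
    have h6 := mul_le_mul_of_nonneg_right hk hy0.le
    have h7 : Real.log 2 / 2 * k * Real.exp (-(Real.log 2 / 2 * k)) * y =
        Real.log 2 / 2 * k * (Real.exp (-(Real.log 2 / 2 * k)) * y) := by ring
    rw [h7, h4, mul_one] at h6
    have h8 : Real.log 2 / 2 * k ≤ Real.log 2 / 2 * (y / 4) := by linarith
    exact le_of_mul_le_mul_left h8 (by positivity)
  nlinarith

theorem exists_long_gaps {f d : ℕ → ℝ} (hf : GapFunction f) (hd : ∀ k, 0 ≤ d k)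
    (hns : ¬ Summable (fun k : ℕ => d k * k / f k)) :
    ∃ p : ℕ → Finset ℕ → ℝ, (∀ k, ∀ T ∈ (block k).powerset, 0 ≤ p k T) ∧
      (∀ k, ∑ T ∈ (block k).powerset, p k T = 1) ∧
      (∀ k, 2 ≤ k → relEntropy (blockLaw p) (fun ω => blockSet ω) (block k) ≤ d k) ∧
      ∀ᵐ ω ∂blockLaw p, ∀ C : ℝ, ∃ᶠ k : ℕ in atTop, ∃ x h : ℕ, C * f k ≤ h ∧
        Ioc x (x + h) ⊆ block k ∧ ∀ n ∈ blockSet ω, ¬ (x < n ∧ n ≤ x + h) := by
  classical
  have hlog2 : 0 < Real.log 2 := Real.log_pos (by norm_num)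
  have hlog2'' : (1 : ℝ) / 2 ≤ Real.log 2 := by
    have := Real.log_two_gt_d9; linarith
  -- the sequences
  obtain ⟨a, ha⟩ : ∃ a : ℕ → ℝ, a = fun k : ℕ => d k * k / f k := ⟨_, rfl⟩
  have hak : ∀ k : ℕ, a k = d k * k / f k := fun k => by rw [ha]
  have hphi := le_phi hf
  obtain ⟨kf, hkf⟩ := eventually_atTop.1 (hphi.and ((eventually_ge_atTop 4).and
    (hf.upper.and ev_window)))
  obtain ⟨k0, hk0⟩ : ∃ k0 : ℕ, k0 = kf + 4 := ⟨_, rfl⟩
  have hlarge : ∀ k, k0 ≤ k → (k : ℝ) / 4 ≤ f k / k ∧ 4 ≤ k ∧ f k ≤ 2 ^ ((k : ℝ) / 2) ∧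
      ((k : ℝ) + 2) * 2 ^ ((k : ℝ) / 2) + 2 ≤ 2 ^ k := fun k hk => hkf k (by omega)
  have hf1 : ∀ k, k0 ≤ k → 1 ≤ f k := by
    intro k hk
    obtain ⟨h1, h2, _, _⟩ := hlarge k hk
    have hk4 : (4 : ℝ) ≤ k := by exact_mod_cast h2
    rw [le_div_iff₀ (by linarith)] at h1
    nlinarith
  obtain ⟨b, hb⟩ : ∃ b : ℕ → ℝ, b = fun k => if k0 ≤ k then min 1 (a k) else 0 := ⟨_, rfl⟩
  have hbk : ∀ k, k0 ≤ k → b k = min 1 (a k) := fun k hk => by rw [hb]; simp [hk]
  have ha0 : ∀ k, k0 ≤ k → 0 ≤ a k := by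
    intro k hk
    rw [hak]
    have := hf1 k hk
    have := hd k
    positivity
  have hb0 : ∀ k, 0 ≤ b k := by
    intro k
    by_cases hk : k0 ≤ k
    · rw [hbk k hk]; exact le_min (by norm_num) (ha0 k hk)
    · rw [hb]; simp [hk]
  have hb1 : ∀ k, b k ≤ 1 := by
    intro k
    by_cases hk : k0 ≤ k
    · rw [hbk k hk]; exact min_le_left _ _
    · rw [hb]; simp [hk]
  have hbs : ¬ Summable b := by
    intro hs
    apply hns
    rw [← ha]
    have h1 := hs.tendsto_atTop_zero.eventually_lt_const (show (0 : ℝ) < 1 by norm_num)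
    refine (summable_congr_atTop ?_).1 hs
    filter_upwards [h1, eventually_ge_atTop k0] with k hk hk0'
    rw [hbk k hk0'] at hk ⊢
    rcases min_lt_iff.1 hk with h2 | h2
    · exact absurd h2 (lt_irrefl _)
    · exact min_eq_right h2.le
  obtain ⟨lam, hlam⟩ : ∃ lam : ℕ → ℝ, lam = fun k => 1 + ∑ j ∈ range (k + 1), b j := ⟨_, rfl⟩
  have hlamk : ∀ k, lam k = 1 + ∑ j ∈ range (k + 1), b j := fun k => by rw [hlam]
  have hlam1 : ∀ k, 1 ≤ lam k := by
    intro k
    rw [hlamk]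
    have := sum_nonneg (fun j (_ : j ∈ range (k + 1)) => hb0 j)
    linarith
  have hlam2 : ∀ k, lam k ≤ (k : ℝ) + 2 := by
    intro k
    rw [hlamk]
    have h1 := sum_le_sum (fun j (_ : j ∈ range (k + 1)) => hb1 j)
    rw [sum_const, card_range, nsmul_eq_mul] at h1
    push_cast at h1
    linarith
  have hlamt : Tendsto lam atTop atTop := by
    have h1 := (not_summable_iff_tendsto_nat_atTop_of_nonneg hb0).1 hbs
    have h2 := tendsto_atTop_add_const_left atTop (1 : ℝ) ((tendsto_add_atTop_iff_nat 1).2 h1)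
    rw [hlam]
    exact h2
  have hdini : ¬ Summable (fun k => b k / lam k) := by
    simp_rw [hlamk]
    exact abel_dini hb0 hb1 hbs
  obtain ⟨h, hh'⟩ : ∃ h : ℕ → ℕ, h = fun k => ⌈lam k * f k⌉₊ := ⟨_, rfl⟩
  have hhk : ∀ k, h k = ⌈lam k * f k⌉₊ := fun k => by rw [hh']
  have hhlow : ∀ k, lam k * f k ≤ h k := fun k => by rw [hhk]; exact Nat.le_ceil _
  have hhup : ∀ k, k0 ≤ k → (h k : ℝ) ≤ 2 * (lam k * f k) := by
    intro k hk
    have h1 : 1 ≤ lam k * f k := by nlinarith [hlam1 k, hf1 k hk]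
    have := (Nat.ceil_lt_add_one (show 0 ≤ lam k * f k by linarith)).le
    rw [hhk]
    linarith
  have hhpos : ∀ k, k0 ≤ k → 0 < h k := by
    intro k hk
    have h1 : 1 ≤ lam k * f k := by nlinarith [hlam1 k, hf1 k hk]
    have h2 := hhlow k
    have : (0 : ℝ) < h k := by linarith
    exact_mod_cast this
  have hh2 : ∀ k, k0 ≤ k → h k + 1 ≤ 2 ^ k := by
    intro k hk
    obtain ⟨_, _, h3, h4⟩ := hlarge k hk
    have h5 : (0 : ℝ) ≤ 2 ^ ((k : ℝ) / 2) := by positivity
    have h6 : lam k * f k ≤ ((k : ℝ) + 2) * 2 ^ ((k : ℝ) / 2) := by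
      apply mul_le_mul (hlam2 k) h3 (by linarith [hf1 k hk]) (by positivity)
    have h7 : (h k : ℝ) < lam k * f k + 1 := by
      rw [hhk]
      exact Nat.ceil_lt_add_one (by nlinarith [hlam1 k, hf1 k hk])
    have h8 : ((h k + 1 : ℕ) : ℝ) ≤ ((2 ^ k : ℕ) : ℝ) := by
      push_cast
      linarith
    exact_mod_cast h8
  obtain ⟨W, hW⟩ : ∃ W : ℕ → Finset ℕ, W = fun k => Ioc (2 ^ k) (2 ^ k + h k) := ⟨_, rfl⟩
  have hWk : ∀ k, W k = Ioc (2 ^ k) (2 ^ k + h k) := fun k => by rw [hW]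
  have hWsub : ∀ k, k0 ≤ k → W k ⊆ block k := by
    intro k hk n hn
    have := hh2 k hk
    rw [hWk, mem_Ioc] at hn
    rw [block, mem_Ico, pow_succ]
    omega
  have hB : ∀ k, k0 ≤ k → ∀ n ∈ block k, 3 ≤ n := fun k hk n hn =>
    three_le_of_mem_block (by omega) hn
  obtain ⟨Q, hQ⟩ : ∃ Q : ℕ → ℝ, Q = fun k => ∏ n ∈ W k, (1 - 1 / Real.log (n : ℝ)) := ⟨_, rfl⟩
  have hQk : ∀ k, Q k = ∏ n ∈ W k, (1 - 1 / Real.log (n : ℝ)) := fun k => by rw [hQ]
  have hfac : ∀ k, k0 ≤ k → ∀ n ∈ W k, 0 < 1 - 1 / Real.log (n : ℝ) ∧ 1 - 1 / Real.log (n : ℝ) < 1 := by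
    intro k hk n hn
    have h1 := one_lt_log (hB k hk n (hWsub k hk hn))
    have h2 : 1 / Real.log (n : ℝ) < 1 := by rw [div_lt_one (by linarith)]; exact h1
    have h3 : 0 < 1 / Real.log (n : ℝ) := by
      have : 0 < Real.log (n : ℝ) := by linarith
      positivity
    constructor <;> linarith
  have hQ0 : ∀ k, k0 ≤ k → 0 < Q k := by
    intro k hk
    rw [hQk]
    exact prod_pos (fun n hn => (hfac k hk n hn).1)
  have hQ1 : ∀ k, k0 ≤ k → Q k < 1 := by
    intro k hk
    rw [hQk]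
    have hne : (W k).Nonempty := by
      rw [hWk]
      have := hhpos k hk
      exact ⟨2 ^ k + 1, mem_Ioc.2 ⟨by omega, by omega⟩⟩
    obtain ⟨n0, hn0⟩ := hne
    rw [← mul_prod_erase _ _ hn0]
    have h1 : ∏ n ∈ (W k).erase n0, (1 - 1 / Real.log (n : ℝ)) ≤ 1 := by
      apply prod_le_one
      · intro n hn
        exact (hfac k hk n (mem_of_mem_erase hn)).1.le
      · intro n hn
        exact (hfac k hk n (mem_of_mem_erase hn)).2.le
    have h2 := hfac k hk n0 hn0
    nlinarith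
  have hQlow : ∀ k, k0 ≤ k → Real.log (1 / Q k) ≤ 8 * (lam k * (f k / k)) := by
    intro k hk
    obtain ⟨_, h4, _, _⟩ := hlarge k hk
    have hk4 : (4 : ℝ) ≤ k := by exact_mod_cast h4
    have h5 := le_prod_window (k := k) (by omega) (hWsub k hk) (δ := 1) one_pos (by nlinarith)
    rw [← hQk, hWk, Nat.card_Ioc, Nat.add_sub_cancel_left] at h5
    have h6 : Real.log (1 / Q k) = -Real.log (Q k) := by rw [one_div, Real.log_inv]
    rw [h6]
    have h7 : -((1 + 1) * (h k : ℝ) / (k * Real.log 2)) ≤ Real.log (Q k) := by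
      rw [Real.le_log_iff_exp_le (hQ0 k hk)]; exact h5
    have h8 : (1 + 1) * (h k : ℝ) / (k * Real.log 2) ≤ 8 * (lam k * (f k / k)) := by
      rw [div_le_iff₀ (by positivity)]
      have h9 := hhup k hk
      have h10 : 8 * (lam k * (f k / k)) * (k * Real.log 2) = 8 * (lam k * f k) * Real.log 2 := by
        field_simp
      rw [h10]
      have h11 : 0 ≤ lam k * f k := by nlinarith [hlam1 k, hf1 k hk]
      nlinarith
    linarith
  obtain ⟨m, hm⟩ : ∃ m : ℕ → ℝ, m = fun k => max (Q k) (min 1 (a k / (8 * lam k))) := ⟨_, rfl⟩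
  have hmk : ∀ k, m k = max (Q k) (min 1 (a k / (8 * lam k))) := fun k => by rw [hm]
  have hmQ : ∀ k, Q k ≤ m k := fun k => by rw [hmk]; exact le_max_left _ _
  have hm1 : ∀ k, k0 ≤ k → m k ≤ 1 := by
    intro k hk
    rw [hmk]
    exact max_le (hQ1 k hk).le (min_le_left _ _)
  have hm0 : ∀ k, k0 ≤ k → 0 ≤ m k := fun k hk => (hQ0 k hk).le.trans (hmQ k)
  -- the weights
  obtain ⟨p, hp⟩ : ∃ p : ℕ → Finset ℕ → ℝ, p = fun k T =>
      if k0 ≤ k then mix (block k) (W k) (m k) T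
      else if 2 ≤ k then cramerOn (block k) T else (if T = ∅ then 1 else 0) := ⟨_, rfl⟩
  have hpk : ∀ k, k0 ≤ k → ∀ T, p k T = mix (block k) (W k) (m k) T := by
    intro k hk T; rw [hp]; simp [hk]
  have hpk2 : ∀ k, ¬ k0 ≤ k → 2 ≤ k → ∀ T, p k T = cramerOn (block k) T := by
    intro k hk hk2 T; rw [hp]; simp [hk, hk2]
  have hpk3 : ∀ k, ¬ k0 ≤ k → ¬ 2 ≤ k → ∀ T, p k T = if T = ∅ then 1 else 0 := by
    intro k hk hk2 T; rw [hp]; simp [hk, hk2]
  have hp0 : ∀ k, ∀ T ∈ (block k).powerset, 0 ≤ p k T := by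
    intro k T hT
    by_cases hk : k0 ≤ k
    · rw [hpk k hk]
      exact mix_nonneg (hB k hk) (by rw [← hQk]; exact hQ0 k hk) (by rw [← hQk]; exact hQ1 k hk)
        (hm0 k hk) (hm1 k hk) hT
    · by_cases hk2 : 2 ≤ k
      · rw [hpk2 k hk hk2]
        exact (cramerOn_pos (fun n hn => three_le_of_mem_block hk2 hn) (mem_powerset.1 hT)).le
      · rw [hpk3 k hk hk2]
        split_ifs <;> norm_num
  have hp1 : ∀ k, ∑ T ∈ (block k).powerset, p k T = 1 := by
    intro k
    by_cases hk : k0 ≤ k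
    · simp_rw [hpk k hk]
      exact sum_mix (hWsub k hk) (by rw [← hQk]; exact hQ0 k hk) (by rw [← hQk]; exact hQ1 k hk)
    · by_cases hk2 : 2 ≤ k
      · simp_rw [hpk2 k hk hk2]
        exact sum_cramerOn _
      · simp_rw [hpk3 k hk hk2]
        rw [sum_ite_eq' (block k).powerset ∅, if_pos (empty_mem_powerset _)]
  refine ⟨p, hp0, hp1, ?_, ?_⟩
  · intro k hk2
    rw [relEntropy_blockLaw hp0 hp1]
    by_cases hk : k0 ≤ k
    · simp_rw [hpk k hk]
      have hQ0' : 0 < ∏ n ∈ W k, (1 - 1 / Real.log (n : ℝ)) := by rw [← hQk]; exact hQ0 k hk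
      have hQ1' : ∏ n ∈ W k, (1 - 1 / Real.log (n : ℝ)) < 1 := by rw [← hQk]; exact hQ1 k hk
      rcases max_choice (Q k) (min 1 (a k / (8 * lam k))) with hc | hc
      · rw [← hmk] at hc
        have h1 := entropy_mix_self (hB k hk) (hWsub k hk) hQ0' hQ1'
        rw [← hQk] at h1
        rw [hc, h1]
        exact hd k
      · rw [← hmk] at hc
        have h1 := entropy_mix_le (hB k hk) (hWsub k hk) hQ0' hQ1' (m := m k)
          (by rw [← hQk]; exact hmQ k) (hm1 k hk)
        refine h1.trans ?_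
        rw [← hQk]
        have h2 : m k ≤ a k / (8 * lam k) := by rw [hc]; exact min_le_right _ _
        have h3 := hQlow k hk
        have hl := hlam1 k
        have hfk := hf1 k hk
        have hkpos : (0 : ℝ) < k := by
          have : 0 < k := by omega
          exact_mod_cast this
        have h4 : 0 ≤ 8 * (lam k * (f k / k)) := by positivity
        calc m k * Real.log (1 / Q k) ≤ m k * (8 * (lam k * (f k / k))) :=
              mul_le_mul_of_nonneg_left h3 (hm0 k hk)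
          _ ≤ a k / (8 * lam k) * (8 * (lam k * (f k / k))) := mul_le_mul_of_nonneg_right h2 h4
          _ = d k := by
            rw [hak]; field_simp
    · simp_rw [hpk2 k hk hk2]
      have h1 : ∑ T ∈ (block k).powerset, cramerOn (block k) T *
          Real.log (cramerOn (block k) T / cramerOn (block k) T) = 0 := by
        apply sum_eq_zero
        intro T hT
        have := cramerOn_pos (fun n hn => three_le_of_mem_block hk2 hn) (mem_powerset.1 hT)
        rw [div_self this.ne', Real.log_one, mul_zero]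
      rw [h1]
      exact hd k
  · haveI : IsProbabilityMeasure (blockLaw p) := isProb_blockLaw hp0 hp1
    obtain ⟨s, hs⟩ : ∃ s : ℕ → Set (ℕ → Finset ℕ), s = fun k =>
        (fun ω : ℕ → Finset ℕ => ω k) ⁻¹' {T | Disjoint T (W k)} := ⟨_, rfl⟩
    have hsm : ∀ k, MeasurableSet (s k) := fun k => by
      rw [hs]; exact (measurable_pi_apply k) MeasurableSet.of_discrete
    have hind : iIndepSet s (blockLaw p) := by
      rw [hs]; exact indep_blockLaw hp0 hp1 (fun k => {T | Disjoint T (W k)})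
    have hmeas : ∀ k, k0 ≤ k → blockLaw p (s k) = ENNReal.ofReal (m k) := by
      intro k hk
      have h1 : s k = (fun ω : ℕ → Finset ℕ => ω k) ⁻¹' {T | Disjoint T (W k)} := by rw [hs]
      rw [h1, blockLaw_pre hp0 hp1, blockMeasure_apply (hp0 k)]
      congr 1
      simp_rw [hpk k hk]
      simp only [Set.mem_ofPred_eq]
      exact sum_mix_free (hWsub k hk) (by rw [← hQk]; exact hQ0 k hk)
    have htop : ∑' k, blockLaw p (s k) = ⊤ := by
      by_contra hcon
      have h1 : Summable (fun k => (blockLaw p (s k)).toReal) := ENNReal.summable_toReal hcon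
      apply hdini
      have h2 : Summable (fun k => 8 * (blockLaw p (s k)).toReal) := h1.mul_left 8
      rw [← summable_nat_add_iff k0] at h2 ⊢
      refine Summable.of_nonneg_of_le (fun n => ?_) (fun n => ?_) h2
      · exact div_nonneg (hb0 _) (by linarith [hlam1 (n + k0)])
      · have hk : k0 ≤ n + k0 := by omega
        rw [hmeas _ hk, ENNReal.toReal_ofReal (hm0 _ hk)]
        have h3 : b (n + k0) / lam (n + k0) / 8 ≤ m (n + k0) := by
          rw [hmk]
          refine le_trans ?_ (le_max_right _ _)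
          have hl := hlam1 (n + k0)
          apply le_min
          · rw [div_div, div_le_one (by positivity)]
            linarith [hb1 (n + k0)]
          · rw [div_div, mul_comm (lam _) 8]
            apply div_le_div_of_nonneg_right _ (by positivity)
            rw [hbk _ hk]
            exact min_le_right _ _
        linarith
    have h1 := measure_limsup_eq_one hsm hind htop
    have h2 : ∀ᵐ ω ∂blockLaw p, ω ∈ limsup s atTop := by
      have h3 : MeasurableSet (limsup s atTop) := MeasurableSet.measurableSet_limsup hsm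
      exact (mem_ae_iff_prob_eq_one h3).2 h1
    filter_upwards [h2] with ω hω C
    rw [mem_limsup_iff_frequently_mem] at hω
    have h3 : ∀ᶠ k : ℕ in atTop, k0 ≤ k ∧ C ≤ lam k :=
      (eventually_ge_atTop k0).and (hlamt.eventually_ge_atTop C)
    refine (hω.and_eventually h3).mono ?_
    rintro k ⟨hk1, hk2, hk3⟩
    refine ⟨2 ^ k, h k, ?_, ?_, ?_⟩
    · refine le_trans ?_ (hhlow k)
      have := hf1 k hk2
      apply mul_le_mul_of_nonneg_right hk3 (by linarith)
    · rw [← hWk]; exact hWsub k hk2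
    · have h4 : Disjoint (ω k) (W k) := by rw [hs] at hk1; exact hk1
      intro n hn hcon
      have h5 : n ∈ W k := by rw [hWk, mem_Ioc]; exact hcon
      have h6 : n ∈ ω k := (mem_blockSet (hWsub k hk2 h5) ω).1 hn
      exact Finset.disjoint_left.1 h4 h6 h5

end Pool.Agent.Q120.ET
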